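import Pool.Agent.Lib.MP_e5770a_an.Main

/-!
# Spectral bound and growth bound of positive groups on ordered Hilbert spaces

For every strongly continuous group of positive operators on the complexification of an ordered
real Hilbert space with closed, normal and generating cone, the spectral bound of the generator
equals the growth bound of the group.
-/

namespace Pool.Agent.Results.MP_e5770a_an.SpectralBoundEqGrowth

open Filter Topology Pool.Agent.Lib.MP_e5770a_an

/-- Let `H ≠ 0` be a real Hilbert space with a closed, normal and generating cone `C`, let `K` be
its complexification and let `T` be a strongly continuous group on `K` with every `T t` positive.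
Then the growth bound `ω = lim (log ‖T t‖) / t` exists in `ℝ`, and it is the least upper bound of
the real parts of the spectrum of the generator: `s(A) = ω₀`. -/
theorem result {H K : Type*} [NormedAddCommGroup H] [InnerProductSpace ℝ H] [CompleteSpace H]
    [Nontrivial H] [NormedAddCommGroup K] [InnerProductSpace ℂ K] [CompleteSpace K]
    (ι : H →ₗ[ℝ] K) (hι : IsComplexification ι) (C : Set H) (hC : IsOrderCone C)
    (T : ℝ → K →L[ℂ] K) (hT : IsC0Group T) (hpos : ∀ t : ℝ, IsPositiveOp ι C (T t)) :
    ∃ ω : ℝ, Tendsto (fun t : ℝ => Real.log ‖T t‖ / t) atTop (𝓝 ω) ∧
      IsLUB (Complex.re '' genSpectrum T) ω :=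
  main hι hC hT hpos

end Pool.Agent.Results.MP_e5770a_an.SpectralBoundEqGrowth
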